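import Pool.Agent.H47.TL.Core
import Pool.Agent.H47.TL.ExtAlg

open CategoryTheory Abelian DirectSum Pool.Agent.H47.TL
open scoped ModuleCat.Algebra

namespace Pool.Agent.Results.MP_f79371_al.YonedaAlgebra

universe u

theorem degree_zero (R : Type u) [CommRing R] (a : R) (L : ℕ) (z : YE.{u} (TT R a L) 0) :
    ∃ r : R, z = r • Ext.mk₀ (𝟙 (TT R a L)) := by
  obtain ⟨f, rfl⟩ := (Ext.mk₀_bijective _ _).2 z
  refine ⟨(show R from f.hom (mkT (a := a) (L := L) (1 : R))), ?_⟩
  rw [← Ext.mk₀_smul]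
  congr 1
  apply ModuleCat.hom_ext
  apply LinearMap.ext
  intro t
  have h1 : algebraMap R (TLA R a L) (show R from t) • (mkT 1 : Triv R a L) = t := by
    rw [algebraMap_smul_triv]
    exact mul_one (show R from t)
  have h2 : f.hom t = algebraMap R (TLA R a L) (show R from t) •
      f.hom (mkT 1 : Triv R a L) := by
    conv_lhs => rw [← h1]
    exact map_smul f.hom _ _
  have h3 : algebraMap R (TLA R a L) (show R from t) • (f.hom (mkT 1 : Triv R a L)) =
      mkT ((show R from t) * (show R from f.hom (mkT 1 : Triv R a L))) :=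
    algebraMap_smul_triv _ _
  have h4 : algebraMap R (TLA R a L) (show R from f.hom (mkT (a := a) (L := L) (1 : R))) •
      (t : Triv R a L) = mkT ((show R from f.hom (mkT (a := a) (L := L) (1 : R))) *
        (show R from t)) := algebraMap_smul_triv _ _
  refine (h2.trans h3).trans (Eq.trans ?_ h4.symm)
  exact congrArg mkT (mul_comm _ _)

theorem degree_zero_inj (R : Type u) [CommRing R] (a : R) (L : ℕ) (r : R)
    (h : r • (Ext.mk₀ (𝟙 (TT R a L)) : YE.{u} (TT R a L) 0) = 0) : r = 0 := by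
  rw [← Ext.mk₀_smul, Ext.mk₀_eq_zero_iff] at h
  have h1 : algebraMap R (TLA R a L) r • (mkT 1 : Triv R a L) = 0 :=
    congrArg (fun f => f.hom (mkT 1 : Triv R a L)) h
  rw [algebraMap_smul_triv] at h1
  have h2 : r * 1 = 0 := h1
  rwa [mul_one] at h2

/-- Let `a` be a non-zero-divisor of the commutative ring `R`, let `n ≥ 1` and let `n!` be a unit
of `R/aR`. Then the Yoneda algebra `Ext^*(R, R)` over the Temperley-Lieb algebra `TL_{2n}(R, a)`
is isomorphic, as a graded `R`-algebra, to `R[x]/(a x)` with `x` in degree `2n`. -/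
theorem result (R : Type u) [CommRing R] (a : R) (ha : a ∈ nonZeroDivisors R) (n : ℕ)
    (hn : 1 ≤ n) (hfac : IsUnit (Ideal.Quotient.mk (Ideal.span {a}) (n.factorial : R))) :
    ∃ e : YTL R a (2 * n) ≃ₐ[R] RXa R a,
      ∀ i, (YTL.deg R a (2 * n) i).map e.toLinearMap = grp R a (2 * n) i := by
  obtain ⟨m, rfl⟩ : ∃ m, n = m + 1 := ⟨n - 1, by omega⟩
  obtain ⟨x, h1, h2, h3, h4, h5, h6⟩ := core R a m ha hfac
  exact final_abstract a (TT R a (2 * (m + 1))) (2 * (m + 1)) (by omega) x h1 h2 h3 h4 h5 h6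
    (degree_zero R a _) (degree_zero_inj R a _)

end Pool.Agent.Results.MP_f79371_al.YonedaAlgebra
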